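import Mathlib

/-!
# Exponential growth rates of finitely generated groups
-/

set_option autoImplicit false

namespace Pool.Agent.J6H23.GR

open Filter Topology

variable {G H : Type} [Group G] [Group H]

/-- The elements of word length at most `k` with respect to `S ∪ S⁻¹`. -/
def ball (S : Set G) (k : ℕ) : Set G :=
  {g | ∃ l : List G, l.length ≤ k ∧ (∀ s ∈ l, s ∈ S ∨ s⁻¹ ∈ S) ∧ l.prod = g}

/-- The number of these elements. -/
noncomputable def beta (S : Set G) (k : ℕ) : ℕ := (ball S k).ncard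

/-- The exponential growth rate `ω(G,S) = lim β(G,S;k)^(1/k)`. -/
noncomputable def omega (S : Set G) : ℝ :=
  limUnder atTop (fun k : ℕ => (beta S k : ℝ) ^ (1 / (k : ℝ)))

/-- `S` is a finite generating set of `G`. -/
def IsGen (S : Set G) : Prop := S.Finite ∧ Subgroup.closure S = ⊤

/-- The minimal growth rate `ω(G)`. -/
noncomputable def omegaMin (G : Type) [Group G] : ℝ := sInf {x | ∃ S : Set G, IsGen S ∧ omega S = x}

/-- `G` attains its minimal growth rate. -/
def Attains (G : Type) [Group G] : Prop := ∃ S : Set G, IsGen S ∧ omega S = omegaMin G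

theorem ball_zero (S : Set G) : ball S 0 = {1} := by
  ext g
  constructor
  · rintro ⟨l, hl, _, rfl⟩
    rw [List.eq_nil_of_length_eq_zero (Nat.le_zero.mp hl)]
    simp
  · rintro rfl
    exact ⟨[], le_rfl, by simp, rfl⟩

theorem one_mem (S : Set G) (k : ℕ) : (1 : G) ∈ ball S k := ⟨[], Nat.zero_le _, by simp, rfl⟩

theorem ball_add (S : Set G) (j k : ℕ) :
    ball S (j + k) ⊆ (fun x : G × G => x.1 * x.2) '' (ball S j ×ˢ ball S k) := by
  rintro g ⟨l, hl, hS, rfl⟩
  refine ⟨((l.take j).prod, (l.drop j).prod), ⟨⟨l.take j, by simp, ?_, rfl⟩,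
    ⟨l.drop j, by rw [List.length_drop]; omega, ?_, rfl⟩⟩, ?_⟩
  · intro s hs
    exact hS s (List.mem_of_mem_take hs)
  · intro s hs
    exact hS s (List.mem_of_mem_drop hs)
  · simp only
    rw [← List.prod_append, List.take_append_drop]

theorem ball_finite {S : Set G} (hS : S.Finite) (k : ℕ) : (ball S k).Finite := by
  induction k with
  | zero => rw [ball_zero]; exact Set.finite_singleton 1
  | succ k ih =>
    refine ((ih.prod ?_).image _).subset (ball_add S k 1)
    have h1 : ball S 1 ⊆ insert 1 (S ∪ (fun s => s⁻¹) '' S) := by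
      rintro g ⟨l, hl, h, rfl⟩
      rcases l with _ | ⟨a, _ | ⟨b, l⟩⟩
      · left; rfl
      · right
        rcases h a (by simp) with ha | ha
        · left; simpa using ha
        · right; exact ⟨a⁻¹, ha, by simp⟩
      · simp at hl
    exact ((hS.union (hS.image _)).insert 1).subset h1

theorem beta_pos {S : Set G} (hS : S.Finite) (k : ℕ) : 0 < beta S k :=
  (Set.ncard_pos (ball_finite hS k)).mpr ⟨1, one_mem S k⟩

theorem beta_add {S : Set G} (hS : S.Finite) (j k : ℕ) : beta S (j + k) ≤ beta S j * beta S k := by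
  unfold beta
  refine le_trans (Set.ncard_le_ncard (ball_add S j k)
    (((ball_finite hS j).prod (ball_finite hS k)).image _)) ?_
  refine le_trans (Set.ncard_image_le ((ball_finite hS j).prod (ball_finite hS k))) ?_
  rw [Set.ncard_prod]

theorem subadd {S : Set G} (hS : S.Finite) : Subadditive (fun k => Real.log (beta S k)) := by
  intro j k
  have h1 : (0 : ℝ) < beta S j := by exact_mod_cast beta_pos hS j
  have h2 : (0 : ℝ) < beta S k := by exact_mod_cast beta_pos hS k
  have h3 : (0 : ℝ) < beta S (j + k) := by exact_mod_cast beta_pos hS (j + k)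
  rw [← Real.log_mul h1.ne' h2.ne']
  exact Real.log_le_log h3 (by exact_mod_cast beta_add hS j k)

theorem bdd {S : Set G} (hS : S.Finite) :
    BddBelow (Set.range fun n : ℕ => Real.log (beta S n) / n) := by
  refine ⟨0, ?_⟩
  rintro _ ⟨n, rfl⟩
  have h1 : (1 : ℝ) ≤ beta S n := by exact_mod_cast beta_pos hS n
  exact div_nonneg (Real.log_nonneg h1) (Nat.cast_nonneg _)

theorem tendsto_omega' {S : Set G} (hS : S.Finite) :
    Tendsto (fun k : ℕ => (beta S k : ℝ) ^ (1 / (k : ℝ))) atTop (𝓝 (Real.exp (subadd hS).lim)) := by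
  have h1 := (Real.continuous_exp.tendsto _).comp ((subadd hS).tendsto_lim (bdd hS))
  refine h1.congr fun k => ?_
  have h2 : (0 : ℝ) < beta S k := by exact_mod_cast beta_pos hS k
  simp only [Function.comp]
  rw [Real.rpow_def_of_pos h2]
  congr 1
  ring

theorem omega_eq {S : Set G} (hS : S.Finite) : omega S = Real.exp (subadd hS).lim :=
  (tendsto_omega' hS).limUnder_eq

/-- The limit exists. -/
theorem tendsto_omega {S : Set G} (hS : S.Finite) :
    Tendsto (fun k : ℕ => (beta S k : ℝ) ^ (1 / (k : ℝ))) atTop (𝓝 (omega S)) := by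
  rw [omega_eq hS]
  exact tendsto_omega' hS

theorem omega_pos {S : Set G} (hS : S.Finite) : 0 < omega S := by
  rw [omega_eq hS]; exact Real.exp_pos _

theorem pow_omega_le {S : Set G} (hS : S.Finite) (k : ℕ) : omega S ^ k ≤ beta S k := by
  rcases Nat.eq_zero_or_pos k with rfl | hk
  · have := beta_pos hS 0
    rw [pow_zero]
    exact_mod_cast this
  have h1 := (subadd hS).lim_le_div (bdd hS) hk.ne'
  have h2 : (0 : ℝ) < beta S k := by exact_mod_cast beta_pos hS k
  have hk' : (0 : ℝ) < k := by exact_mod_cast hk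
  rw [le_div_iff₀ hk'] at h1
  rw [omega_eq hS, ← Real.exp_nat_mul, mul_comm]
  calc Real.exp ((subadd hS).lim * k) ≤ Real.exp (Real.log (beta S k)) := Real.exp_le_exp.mpr h1
    _ = beta S k := Real.exp_log h2

/-- An exponential bound for all `k`. -/
theorem exists_bound {S : Set G} (hS : S.Finite) {c : ℝ} (hc : omega S < c) :
    ∃ C : ℝ, 0 < C ∧ ∀ k : ℕ, (beta S k : ℝ) ≤ C * c ^ k := by
  have hcpos : 0 < c := lt_trans (omega_pos hS) hc
  obtain ⟨K, hK⟩ := eventually_atTop.mp ((tendsto_omega hS).eventually_lt_const hc)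
  refine ⟨1 + ∑ k ∈ Finset.range (K + 1), (beta S k : ℝ) / c ^ k, by positivity, fun k => ?_⟩
  by_cases hk : K + 1 ≤ k
  · have h1 := hK k (by omega)
    have hk' : (0 : ℝ) < k := by
      have : 0 < k := by omega
      exact_mod_cast this
    have h2 : (beta S k : ℝ) ≤ c ^ k := by
      have h3 : ((beta S k : ℝ) ^ (1 / (k : ℝ))) ^ (k : ℝ) ≤ c ^ (k : ℝ) :=
        Real.rpow_le_rpow (by positivity) h1.le hk'.le
      rw [← Real.rpow_mul (Nat.cast_nonneg _), one_div_mul_cancel hk'.ne', Real.rpow_one,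
        Real.rpow_natCast] at h3
      exact h3
    have h4 : (0 : ℝ) ≤ (∑ k ∈ Finset.range (K + 1), (beta S k : ℝ) / c ^ k) * c ^ k := by positivity
    nlinarith
  · have h1 : (beta S k : ℝ) / c ^ k ≤ ∑ k ∈ Finset.range (K + 1), (beta S k : ℝ) / c ^ k :=
      Finset.single_le_sum (f := fun k => (beta S k : ℝ) / c ^ k) (fun i _ => by positivity)
        (Finset.mem_range.mpr (by omega))
    have h2 : (0 : ℝ) < c ^ k := by positivity
    rw [div_le_iff₀ h2] at h1
    nlinarith

/-- Growth rates from exponential bounds. -/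
theorem omega_le_of_bound {S : Set G} (hS : S.Finite) {c C : ℝ} (hc : 0 < c)
    (h : ∀ k : ℕ, (beta S k : ℝ) ≤ (k + 1) * C * c ^ k) : omega S ≤ c := by
  by_contra hlt
  rw [not_le] at hlt
  have hr : 1 < omega S / c := (one_lt_div hc).mpr hlt
  have h1 : ∀ k : ℕ, (omega S / c) ^ k ≤ (k + 1) * C := by
    intro k
    rw [div_pow, div_le_iff₀ (by positivity)]
    exact le_trans (pow_omega_le hS k) (h k)
  have h2 := tendsto_pow_const_div_const_pow_of_one_lt 1 hr
  have h3 : Tendsto (fun k : ℕ => (1 : ℝ) / (omega S / c) ^ k) atTop (𝓝 0) := by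
    have := tendsto_pow_const_div_const_pow_of_one_lt 0 hr
    simpa using this
  have h4 : Tendsto (fun k : ℕ => ((k : ℝ) + 1) * C / (omega S / c) ^ k) atTop (𝓝 0) := by
    have h5 := (h2.add h3).mul_const C
    simp only [add_zero, zero_mul] at h5
    refine h5.congr fun k => ?_
    ring
  have h5 : ∀ k : ℕ, 1 ≤ ((k : ℝ) + 1) * C / (omega S / c) ^ k := by
    intro k
    rw [one_le_div (by positivity)]
    exact h1 k
  have h6 := ge_of_tendsto' h4 h5
  norm_num at h6

/-- Images of generating sets. -/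
theorem IsGen.map {S : Set G} (hS : IsGen S) (f : G →* H) (hf : Function.Surjective f) :
    IsGen (f '' S) ∧ omega (f '' S) ≤ omega S := by
  have hfin := hS.1.image f
  have hball : ∀ k, ball (f '' S) k ⊆ f '' ball S k := by
    intro k
    rintro g ⟨l, hl, h, rfl⟩
    have : ∀ l : List H, (∀ s ∈ l, s ∈ f '' S ∨ s⁻¹ ∈ f '' S) →
        ∃ l' : List G, l'.length = l.length ∧ (∀ s ∈ l', s ∈ S ∨ s⁻¹ ∈ S) ∧ f l'.prod = l.prod := by
      intro l
      induction l with
      | nil => intro _; exact ⟨[], rfl, by simp, by simp⟩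
      | cons a l ih =>
        intro h
        obtain ⟨l', h1, h2, h3⟩ := ih fun s hs => h s (List.mem_cons_of_mem _ hs)
        obtain ⟨b, hb, hba⟩ : ∃ b : G, (b ∈ S ∨ b⁻¹ ∈ S) ∧ f b = a := by
          rcases h a (by simp) with ⟨b, hb, rfl⟩ | ⟨b, hb, hba⟩
          · exact ⟨b, Or.inl hb, rfl⟩
          · exact ⟨b⁻¹, Or.inr (by simpa using hb), by rw [map_inv, hba, inv_inv]⟩
        refine ⟨b :: l', by simp [h1], ?_, by simp [hba, h3]⟩
        intro s hs
        rcases List.mem_cons.mp hs with rfl | hs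
        · exact hb
        · exact h2 s hs
    obtain ⟨l', h1, h2, h3⟩ := this l h
    exact ⟨l'.prod, ⟨l', by omega, h2, rfl⟩, h3⟩
  refine ⟨⟨hfin, ?_⟩, ?_⟩
  · rw [← MonoidHom.map_closure, hS.2, ← MonoidHom.range_eq_map]
    exact MonoidHom.range_eq_top.mpr hf
  · refine le_of_tendsto_of_tendsto' (tendsto_omega hfin) (tendsto_omega hS.1) fun k => ?_
    refine Real.rpow_le_rpow (Nat.cast_nonneg _) ?_ (by positivity)
    have h1 : beta (f '' S) k ≤ beta S k :=
      le_trans (Set.ncard_le_ncard (hball k) ((ball_finite hS.1 k).image f))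
        (Set.ncard_image_le (ball_finite hS.1 k))
    exact_mod_cast h1

/-- The union of generating sets of the factors. -/
def prodSet (S : Set G) (T : Set H) : Set (G × H) :=
  (fun s => (s, (1 : H))) '' S ∪ (fun t => ((1 : G), t)) '' T

theorem ball_prodSet (S : Set G) (T : Set H) (k : ℕ) :
    ball (prodSet S T) k ⊆ ⋃ i ∈ Finset.range (k + 1), ball S i ×ˢ ball T (k - i) := by
  have key : ∀ l : List (G × H), (∀ s ∈ l, s ∈ prodSet S T ∨ s⁻¹ ∈ prodSet S T) →
      ∃ i ≤ l.length, l.prod.1 ∈ ball S i ∧ l.prod.2 ∈ ball T (l.length - i) := by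
    intro l
    induction l with
    | nil => intro _; exact ⟨0, le_rfl, one_mem _ _, one_mem _ _⟩
    | cons a l ih =>
      intro h
      obtain ⟨i, hi, ⟨l1, h1, h2, h3⟩, ⟨l2, h4, h5, h6⟩⟩ := ih fun s hs => h s (List.mem_cons_of_mem _ hs)
      have ha : ((a.1 ∈ S ∨ a.1⁻¹ ∈ S) ∧ a.2 = 1) ∨ (a.1 = 1 ∧ (a.2 ∈ T ∨ a.2⁻¹ ∈ T)) := by
        rcases h a (by simp) with h | h
        · rcases h with ⟨s, hs, rfl⟩ | ⟨t, ht, rfl⟩
          · left; exact ⟨Or.inl hs, rfl⟩
          · right; exact ⟨rfl, Or.inl ht⟩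
        · rcases h with ⟨s, hs, hsa⟩ | ⟨t, ht, hta⟩
          · left
            have e1 : a.1⁻¹ = s := (congrArg Prod.fst hsa).symm
            have e2 : a.2⁻¹ = 1 := (congrArg Prod.snd hsa).symm
            exact ⟨Or.inr (e1 ▸ hs), inv_eq_one.mp e2⟩
          · right
            have e1 : a.1⁻¹ = 1 := (congrArg Prod.fst hta).symm
            have e2 : a.2⁻¹ = t := (congrArg Prod.snd hta).symm
            exact ⟨inv_eq_one.mp e1, Or.inr (e2 ▸ ht)⟩
      rcases ha with ⟨ha1, ha2⟩ | ⟨ha1, ha2⟩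
      · refine ⟨i + 1, by simp [hi], ⟨a.1 :: l1, by simp [h1], ?_, by simp [h3]⟩,
          ⟨l2, by simp only [List.length_cons]; omega, h5, by simp [h6, ha2]⟩⟩
        intro s hs
        rcases List.mem_cons.mp hs with rfl | hs
        · exact ha1
        · exact h2 s hs
      · refine ⟨i, by simp only [List.length_cons]; omega, ⟨l1, h1, h2, by simp [h3, ha1]⟩,
          ⟨a.2 :: l2, by simp only [List.length_cons]; omega, ?_, by simp [h6]⟩⟩
        intro s hs
        rcases List.mem_cons.mp hs with rfl | hs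
        · exact ha2
        · exact h5 s hs
  rintro g ⟨l, hl, h, rfl⟩
  obtain ⟨i, hi, h1, ⟨l2, h4, h5, h6⟩⟩ := key l h
  simp only [Set.mem_iUnion, Finset.mem_range]
  exact ⟨i, by omega, h1, ⟨l2, by omega, h5, h6⟩⟩

theorem IsGen.prod {S : Set G} {T : Set H} (hS : IsGen S) (hT : IsGen T) :
    IsGen (prodSet S T) ∧ omega (prodSet S T) ≤ max (omega S) (omega T) := by
  have hfin : (prodSet S T).Finite := (hS.1.image _).union (hT.1.image _)
  refine ⟨⟨hfin, ?_⟩, ?_⟩
  · rw [prodSet, Subgroup.closure_union]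
    have e1 : (fun s => (s, (1 : H))) '' S = (MonoidHom.inl G H) '' S := rfl
    have e2 : (fun t => ((1 : G), t)) '' T = (MonoidHom.inr G H) '' T := rfl
    rw [e1, e2, ← MonoidHom.map_closure, ← MonoidHom.map_closure, hS.2, hT.2, eq_top_iff]
    rintro ⟨a, b⟩ _
    have : ((a, b) : G × H) = MonoidHom.inl G H a * MonoidHom.inr G H b := by simp
    rw [this]
    exact Subgroup.mul_mem_sup (Subgroup.mem_map_of_mem _ (Subgroup.mem_top a))
      (Subgroup.mem_map_of_mem _ (Subgroup.mem_top b))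
  · refine le_of_forall_pos_le_add fun ε hε => ?_
    set c := max (omega S) (omega T) + ε with hc
    have hcS : omega S < c := lt_of_le_of_lt (le_max_left _ _) (by linarith)
    have hcT : omega T < c := lt_of_le_of_lt (le_max_right _ _) (by linarith)
    have hcpos : 0 < c := lt_trans (omega_pos hS.1) hcS
    obtain ⟨C₁, hC₁, h1⟩ := exists_bound hS.1 hcS
    obtain ⟨C₂, hC₂, h2⟩ := exists_bound hT.1 hcT
    refine omega_le_of_bound hfin hcpos (C := C₁ * C₂) fun k => ?_
    have h3 : beta (prodSet S T) k ≤ ∑ i ∈ Finset.range (k + 1), beta S i * beta T (k - i) := by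
      unfold beta
      refine le_trans (Set.ncard_le_ncard (ball_prodSet S T k) ?_) ?_
      · exact Set.Finite.biUnion (Finset.finite_toSet _)
          fun i _ => (ball_finite hS.1 i).prod (ball_finite hT.1 (k - i))
      · refine le_trans (Finset.set_ncard_biUnion_le _ _) (Finset.sum_le_sum fun i _ => ?_)
        rw [Set.ncard_prod]
    have h4 : ((∑ i ∈ Finset.range (k + 1), beta S i * beta T (k - i) : ℕ) : ℝ) ≤
        ∑ _i ∈ Finset.range (k + 1), C₁ * C₂ * c ^ k := by
      rw [Nat.cast_sum]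
      refine Finset.sum_le_sum fun i hi => ?_
      rw [Finset.mem_range] at hi
      rw [Nat.cast_mul]
      calc (beta S i : ℝ) * (beta T (k - i) : ℝ) ≤ (C₁ * c ^ i) * (C₂ * c ^ (k - i)) :=
            mul_le_mul (h1 i) (h2 (k - i)) (Nat.cast_nonneg _) (by positivity)
        _ = C₁ * C₂ * (c ^ i * c ^ (k - i)) := by ring
        _ = C₁ * C₂ * c ^ k := by rw [← pow_add, Nat.add_sub_cancel' (by omega)]
    rw [Finset.sum_const, Finset.card_range, nsmul_eq_mul] at h4
    have h5 : (beta (prodSet S T) k : ℝ) ≤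
        ((∑ i ∈ Finset.range (k + 1), beta S i * beta T (k - i) : ℕ) : ℝ) := by exact_mod_cast h3
    refine le_trans h5 (le_trans h4 (le_of_eq ?_))
    push_cast
    ring

theorem bddBelow_set (G : Type) [Group G] : BddBelow {x | ∃ S : Set G, IsGen S ∧ omega S = x} :=
  ⟨0, fun _ ⟨_, hS, h⟩ => h ▸ (omega_pos hS.1).le⟩

theorem omegaMin_le {S : Set G} (hS : IsGen S) : omegaMin G ≤ omega S :=
  csInf_le (bddBelow_set G) ⟨S, hS, rfl⟩

theorem nonempty_set (G : Type) [Group G] [Group.FG G] :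
    {x | ∃ S : Set G, IsGen S ∧ omega S = x}.Nonempty := by
  obtain ⟨S, hS⟩ := (Group.fg_iff.mp (inferInstance : Group.FG G))
  exact ⟨omega S, S, ⟨hS.2, hS.1⟩, rfl⟩

theorem exists_lt_of_omegaMin_lt (G : Type) [Group G] [Group.FG G] {c : ℝ} (h : omegaMin G < c) :
    ∃ S : Set G, IsGen S ∧ omega S < c := by
  obtain ⟨x, ⟨S, hS, rfl⟩, hx⟩ := exists_lt_of_csInf_lt (nonempty_set G) h
  exact ⟨S, hS, hx⟩

theorem fst_le {U : Set (G × H)} (hU : IsGen U) :
    IsGen (Prod.fst '' U) ∧ omega (Prod.fst '' U) ≤ omega U :=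
  hU.map (MonoidHom.fst G H) Prod.fst_surjective

theorem snd_le {U : Set (G × H)} (hU : IsGen U) :
    IsGen (Prod.snd '' U) ∧ omega (Prod.snd '' U) ≤ omega U :=
  hU.map (MonoidHom.snd G H) Prod.snd_surjective

theorem omegaMin_prod (G H : Type) [Group G] [Group H] [Group.FG G] [Group.FG H] :
    omegaMin (G × H) = max (omegaMin G) (omegaMin H) := by
  apply le_antisymm
  · refine le_of_forall_pos_le_add fun ε hε => ?_
    obtain ⟨S, hS, hS'⟩ := exists_lt_of_omegaMin_lt G (show omegaMin G < omegaMin G + ε by linarith)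
    obtain ⟨T, hT, hT'⟩ := exists_lt_of_omegaMin_lt H (show omegaMin H < omegaMin H + ε by linarith)
    obtain ⟨h1, h2⟩ := hS.prod hT
    refine le_trans (omegaMin_le h1) (le_trans h2 (max_le ?_ ?_))
    · exact le_trans hS'.le (by linarith [le_max_left (omegaMin G) (omegaMin H)])
    · exact le_trans hT'.le (by linarith [le_max_right (omegaMin G) (omegaMin H)])
  · obtain ⟨S, hS⟩ := nonempty_set G
    obtain ⟨S, hS, -⟩ := hS
    obtain ⟨T, hT⟩ := nonempty_set H
    obtain ⟨T, hT, -⟩ := hT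
    refine le_csInf ⟨_, prodSet S T, (hS.prod hT).1, rfl⟩ ?_
    rintro x ⟨U, hU, rfl⟩
    exact max_le (le_trans (omegaMin_le (fst_le hU).1) (fst_le hU).2)
      (le_trans (omegaMin_le (snd_le hU).1) (snd_le hU).2)

end Pool.Agent.J6H23.GR
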