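import Pool.Agent.J6H23.GR.Growth

/-!
# Normal subgroups of subexponential relative growth
-/

set_option autoImplicit false

namespace Pool.Agent.J6H23.GR

open Filter Topology

variable {G : Type} [Group G]

theorem ball_mono (S : Set G) {j k : ℕ} (h : j ≤ k) : ball S j ⊆ ball S k := by
  rintro g ⟨l, hl, hS, rfl⟩
  exact ⟨l, le_trans hl h, hS, rfl⟩

theorem mul_mem_ball {S : Set G} {j k : ℕ} {a b : G} (ha : a ∈ ball S j) (hb : b ∈ ball S k) :
    a * b ∈ ball S (j + k) := by
  obtain ⟨l, hl, hS, rfl⟩ := ha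
  obtain ⟨l', hl', hS', rfl⟩ := hb
  refine ⟨l ++ l', by rw [List.length_append]; omega, ?_, by rw [List.prod_append]⟩
  intro s hs
  rcases List.mem_append.mp hs with h | h
  · exact hS s h
  · exact hS' s h

theorem inv_mem_ball {S : Set G} {k : ℕ} {a : G} (ha : a ∈ ball S k) : a⁻¹ ∈ ball S k := by
  obtain ⟨l, hl, hS, rfl⟩ := ha
  refine ⟨(l.map fun x => x⁻¹).reverse, by simpa using hl, ?_, by rw [List.prod_inv_reverse]⟩
  intro s hs
  rw [List.mem_reverse, List.mem_map] at hs
  obtain ⟨t, ht, rfl⟩ := hs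
  rw [inv_inv]
  exact (hS t ht).symm

theorem exists_mem_ball {S : Set G} (hS : IsGen S) (g : G) : ∃ k, g ∈ ball S k := by
  have hg : g ∈ Subgroup.closure S := by rw [hS.2]; exact Subgroup.mem_top g
  induction hg using Subgroup.closure_induction with
  | mem x hx => exact ⟨1, [x], by simp, by simpa using Or.inl hx, by simp⟩
  | one => exact ⟨0, one_mem S 0⟩
  | mul x y _ _ hx hy =>
    obtain ⟨j, hj⟩ := hx
    obtain ⟨k, hk⟩ := hy
    exact ⟨j + k, mul_mem_ball hj hk⟩
  | inv x _ hx =>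
    obtain ⟨j, hj⟩ := hx
    exact ⟨j, inv_mem_ball hj⟩

/-- Change of generators. -/
theorem exists_factor {S : Set G} (hS : IsGen S) {T : Set G} (hT : T.Finite) :
    ∃ m : ℕ, ∀ k, ball T k ⊆ ball S (m * k) := by
  choose f hf using exists_mem_ball hS
  obtain ⟨m, hm⟩ : ∃ m, ∀ t ∈ T, f t ≤ m := by
    obtain ⟨m, hm⟩ := (hT.image f).bddAbove
    exact ⟨m, fun t ht => hm ⟨t, ht, rfl⟩⟩
  have hT' : ∀ t, (t ∈ T ∨ t⁻¹ ∈ T) → t ∈ ball S m := by
    rintro t (ht | ht)
    · exact ball_mono S (hm t ht) (hf t)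
    · have := inv_mem_ball (ball_mono S (hm _ ht) (hf t⁻¹))
      rwa [inv_inv] at this
  refine ⟨m, fun k => ?_⟩
  have key : ∀ l : List G, (∀ s ∈ l, s ∈ T ∨ s⁻¹ ∈ T) → l.prod ∈ ball S (m * l.length) := by
    intro l
    induction l with
    | nil => intro _; exact one_mem S _
    | cons a l ih =>
      intro h
      have h1 := mul_mem_ball (hT' a (h a (by simp))) (ih fun s hs => h s (List.mem_cons_of_mem _ hs))
      rw [List.prod_cons, List.length_cons]
      exact ball_mono S (by ring_nf; exact le_rfl) h1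
  rintro g ⟨l, hl, h, rfl⟩
  exact ball_mono S (Nat.mul_le_mul_left m hl) (key l h)

/-- `N` has subexponential relative growth in `G`: for some finite generating set `S` of `G` and
for all `c > 1` the number of the elements of `N` of length at most `k` is `O(c ^ k)`. -/
def Subexp (N : Subgroup G) : Prop :=
  ∃ S : Set G, IsGen S ∧ ∀ c : ℝ, 1 < c → ∃ C : ℝ, ∀ k : ℕ,
    ((ball S k ∩ (N : Set G)).ncard : ℝ) ≤ C * c ^ k

theorem Subexp.all {N : Subgroup G} (hN : Subexp N) {T : Set G} (hT : IsGen T) (c : ℝ) (hc : 1 < c) :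
    ∃ C : ℝ, ∀ k : ℕ, ((ball T k ∩ (N : Set G)).ncard : ℝ) ≤ C * c ^ k := by
  obtain ⟨S, hS, h⟩ := hN
  obtain ⟨m, hm⟩ := exists_factor hS hT.1
  obtain ⟨d, hd1, hd⟩ : ∃ d : ℝ, 1 < d ∧ d ^ m ≤ c := by
    refine ⟨c ^ (1 / ((m : ℝ) + 1)), Real.one_lt_rpow hc (by positivity), ?_⟩
    rw [← Real.rpow_natCast, ← Real.rpow_mul (by linarith)]
    calc c ^ (1 / ((m : ℝ) + 1) * (m : ℝ)) ≤ c ^ (1 : ℝ) := by
          refine Real.rpow_le_rpow_of_exponent_le hc.le ?_
          rw [one_div, inv_mul_le_iff₀ (by positivity)]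
          linarith
      _ = c := Real.rpow_one c
  obtain ⟨C, hC⟩ := h d hd1
  refine ⟨max C 0, fun k => ?_⟩
  have h1 : (ball T k ∩ (N : Set G)).ncard ≤ (ball S (m * k) ∩ (N : Set G)).ncard :=
    Set.ncard_le_ncard (Set.inter_subset_inter_left _ (hm k))
      ((ball_finite hS.1 _).inter_of_left _)
  calc ((ball T k ∩ (N : Set G)).ncard : ℝ) ≤ ((ball S (m * k) ∩ (N : Set G)).ncard : ℝ) := by
        exact_mod_cast h1
    _ ≤ C * d ^ (m * k) := hC (m * k)
    _ ≤ max C 0 * d ^ (m * k) := mul_le_mul_of_nonneg_right (le_max_left _ _) (by positivity)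
    _ = max C 0 * (d ^ m) ^ k := by rw [pow_mul]
    _ ≤ max C 0 * c ^ k := mul_le_mul_of_nonneg_left (pow_le_pow_left₀ (by positivity) hd k)
        (le_max_right _ _)

theorem beta_le_mul (N : Subgroup G) [N.Normal] {S : Set G} (hS : S.Finite) (k : ℕ) :
    beta S k ≤ (ball S (2 * k) ∩ (N : Set G)).ncard * beta (QuotientGroup.mk' N '' S) k := by
  classical
  have hfin := ball_finite hS k
  have hfin2 := (ball_finite hS (2 * k)).inter_of_left (N : Set G)
  have himg : QuotientGroup.mk' N '' ball S k ⊆ ball (QuotientGroup.mk' N '' S) k := by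
    rintro _ ⟨g, ⟨l, hl, h, rfl⟩, rfl⟩
    refine ⟨l.map (QuotientGroup.mk' N), by simpa using hl, ?_, by rw [map_list_prod]⟩
    intro s hs
    rw [List.mem_map] at hs
    obtain ⟨t, ht, rfl⟩ := hs
    rcases h t ht with h | h
    · left; exact ⟨t, h, rfl⟩
    · right; exact ⟨t⁻¹, h, by rw [map_inv]⟩
  have h1 : hfin.toFinset.card ≤ (ball S (2 * k) ∩ (N : Set G)).ncard *
      (hfin.toFinset.image (QuotientGroup.mk' N)).card := by
    refine Finset.card_le_mul_card_image _ _ ?_
    intro q hq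
    rw [Finset.mem_image] at hq
    obtain ⟨g0, hg0, rfl⟩ := hq
    rw [Set.Finite.mem_toFinset] at hg0
    rw [Set.ncard_eq_toFinset_card _ hfin2]
    refine Finset.card_le_card_of_injOn (fun g => g0⁻¹ * g) ?_ ?_
    · intro g hg
      rw [Finset.mem_coe, Finset.mem_filter, Set.Finite.mem_toFinset] at hg
      rw [Finset.mem_coe, Set.Finite.mem_toFinset]
      refine ⟨?_, ?_⟩
      · rw [two_mul]
        exact mul_mem_ball (inv_mem_ball hg0) hg.1
      · exact QuotientGroup.eq.mp hg.2.symm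
    · intro a _ b _ hab
      exact mul_left_cancel hab
  unfold beta
  rw [Set.ncard_eq_toFinset_card _ hfin]
  refine le_trans h1 (Nat.mul_le_mul_left _ ?_)
  rw [← Set.ncard_coe_finset]
  refine Set.ncard_le_ncard ?_ (ball_finite (hS.image _) k)
  rw [Finset.coe_image, Set.Finite.coe_toFinset]
  exact himg

theorem omega_le_quot {N : Subgroup G} [N.Normal] (hN : Subexp N) {S : Set G} (hS : IsGen S) :
    omega S ≤ omega (QuotientGroup.mk' N '' S) := by
  have hfin := hS.1.image (QuotientGroup.mk' N)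
  have hpos := omega_pos hfin
  -- for all `c > 1`
  have key : ∀ c : ℝ, 1 < c → omega S ≤ (c * omega (QuotientGroup.mk' N '' S)) * c ^ 2 := by
    intro c hc
    obtain ⟨C₁, hC₁, h1⟩ := exists_bound hfin
      (show omega (QuotientGroup.mk' N '' S) < c * omega (QuotientGroup.mk' N '' S) by nlinarith)
    obtain ⟨C₂, h2⟩ := hN.all hS c hc
    have hC₂ : 0 ≤ C₂ := by
      have h3 := h2 0
      rw [pow_zero, mul_one] at h3
      exact le_trans (Nat.cast_nonneg _) h3
    refine omega_le_of_bound hS.1 (by positivity) (C := C₂ * C₁) fun k => ?_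
    have h3 : (beta S k : ℝ) ≤ ((ball S (2 * k) ∩ (N : Set G)).ncard : ℝ) *
        (beta (QuotientGroup.mk' N '' S) k : ℝ) := by exact_mod_cast beta_le_mul N hS.1 k
    have hk : (1 : ℝ) ≤ (k : ℝ) + 1 := by
      have : (0 : ℝ) ≤ k := Nat.cast_nonneg k
      linarith
    calc (beta S k : ℝ) ≤ (C₂ * c ^ (2 * k)) * (C₁ * (c * omega (QuotientGroup.mk' N '' S)) ^ k) :=
          le_trans h3 (mul_le_mul (h2 (2 * k)) (h1 k) (Nat.cast_nonneg _) (by positivity))
      _ = C₂ * C₁ * ((c * omega (QuotientGroup.mk' N '' S)) * c ^ 2) ^ k := by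
          rw [mul_pow _ (c ^ 2), ← pow_mul]; ring
      _ ≤ ((k : ℝ) + 1) * (C₂ * C₁) * ((c * omega (QuotientGroup.mk' N '' S)) * c ^ 2) ^ k := by
          have h4 : 0 ≤ C₂ * C₁ * ((c * omega (QuotientGroup.mk' N '' S)) * c ^ 2) ^ k := by
            positivity
          nlinarith
  have hcont : Tendsto (fun c : ℝ => (c * omega (QuotientGroup.mk' N '' S)) * c ^ 2) (𝓝[>] 1)
      (𝓝 ((1 * omega (QuotientGroup.mk' N '' S)) * 1 ^ 2)) := by
    refine tendsto_nhdsWithin_of_tendsto_nhds ?_
    exact ((continuous_id.mul continuous_const).mul (continuous_id.pow 2)).tendsto 1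
  have h5 := ge_of_tendsto hcont (eventually_nhdsWithin_of_forall fun c hc => key c hc)
  simpa using h5

theorem omega_mono_insert {S T : Set G} (hT : T.Finite) (h : S ⊆ insert 1 T) :
    omega S ≤ omega T := by
  classical
  have hS : S.Finite := (hT.insert 1).subset h
  have hball : ∀ k, ball S k ⊆ ball T k := by
    intro k
    have key : ∀ l : List G, (∀ s ∈ l, s ∈ S ∨ s⁻¹ ∈ S) → l.prod ∈ ball T l.length := by
      intro l
      induction l with
      | nil => intro _; exact one_mem T _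
      | cons a l ih =>
        intro hl
        have h1 := ih fun s hs => hl s (List.mem_cons_of_mem _ hs)
        rw [List.prod_cons, List.length_cons, add_comm]
        have h2 : a ∈ ball T 1 := by
          rcases hl a (by simp) with ha | ha
          · rcases h ha with h3 | h3
            · rw [h3]; exact one_mem T 1
            · exact ⟨[a], by simp, by simpa using Or.inl h3, by simp⟩
          · rcases h ha with h3 | h3
            · rw [inv_eq_one.mp h3]; exact one_mem T 1
            · exact ⟨[a], by simp, by simpa using Or.inr h3, by simp⟩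
        exact mul_mem_ball h2 h1
    rintro g ⟨l, hl, hS', rfl⟩
    exact ball_mono T hl (key l hS')
  refine le_of_tendsto_of_tendsto' (tendsto_omega hS) (tendsto_omega hT) fun k => ?_
  refine Real.rpow_le_rpow (Nat.cast_nonneg _) ?_ (by positivity)
  exact_mod_cast Set.ncard_le_ncard (hball k) (ball_finite hT k)

theorem exists_lift {N : Subgroup G} [N.Normal] [hfg : Group.FG G] {T : Set (G ⧸ N)} (hT : IsGen T) :
    ∃ S : Set G, IsGen S ∧ QuotientGroup.mk' N '' S ⊆ insert 1 T := by
  classical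
  obtain ⟨x, S₀, hS₀, -⟩ := nonempty_set G
  set A : Set G := Quotient.out '' T with hA
  have hAT : QuotientGroup.mk' N '' A = T := by
    rw [hA, Set.image_image]
    ext t
    constructor
    · rintro ⟨u, hu, rfl⟩
      have : QuotientGroup.mk' N (Quotient.out u) = u := Quotient.out_eq' u
      show QuotientGroup.mk' N (Quotient.out u) ∈ T
      rw [this]
      exact hu
    · intro ht
      exact ⟨t, ht, Quotient.out_eq' t⟩
  have hlift : ∀ g : G, ∃ a ∈ Subgroup.closure A, QuotientGroup.mk' N a = QuotientGroup.mk' N g := by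
    intro g
    have h1 : QuotientGroup.mk' N g ∈ (Subgroup.closure A).map (QuotientGroup.mk' N) := by
      rw [MonoidHom.map_closure, hAT, hT.2]
      exact Subgroup.mem_top _
    obtain ⟨a, ha, hag⟩ := Subgroup.mem_map.mp h1
    exact ⟨a, ha, hag⟩
  choose f hf1 hf2 using hlift
  refine ⟨A ∪ (fun g => (f g)⁻¹ * g) '' S₀, ⟨(hT.1.image _).union (hS₀.1.image _), ?_⟩, ?_⟩
  · rw [eq_top_iff, ← hS₀.2, Subgroup.closure_le]
    intro g hg
    have h1 : f g ∈ Subgroup.closure (A ∪ (fun g => (f g)⁻¹ * g) '' S₀) :=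
      Subgroup.closure_mono Set.subset_union_left (hf1 g)
    have h2 : (f g)⁻¹ * g ∈ Subgroup.closure (A ∪ (fun g => (f g)⁻¹ * g) '' S₀) :=
      Subgroup.subset_closure (Or.inr ⟨g, hg, rfl⟩)
    have h3 := Subgroup.mul_mem _ h1 h2
    rwa [mul_inv_cancel_left] at h3
  · rw [Set.image_union, hAT]
    rintro q (hq | ⟨_, ⟨g, _, rfl⟩, rfl⟩)
    · exact Or.inr hq
    · left
      rw [map_mul, map_inv, hf2, inv_mul_cancel]

end Pool.Agent.J6H23.GR
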